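import Pool.Agent.RS.StmtsF

/-!
# Row FAC of squad RS: uniform form of the terms
-/

set_option autoImplicit false

namespace Pool.Agent.RS.H96

open MvPolynomial Pool.Agent.RS

theorem one_le_totalDegree_of_prime {E : Type} [Field E] {q : MvPolynomial ℕ E} (hq : Prime q) :
    1 ≤ q.totalDegree := by
  by_contra h
  have h0 : q.totalDegree = 0 := by omega
  rw [totalDegree_eq_zero_iff_eq_C] at h0
  have hne : coeff 0 q ≠ 0 := by
    intro h1
    rw [h1, map_zero] at h0
    exact hq.ne_zero h0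
  apply hq.not_unit
  rw [h0]
  exact (isUnit_iff_ne_zero.2 hne).map C

theorem le_totalDegree_pow {E : Type} [Field E] {q : MvPolynomial ℕ E} (hq : Prime q) (n : ℕ) :
    n ≤ (q ^ n).totalDegree := by
  induction n with
  | zero => exact Nat.zero_le _
  | succ n ih =>
    rw [pow_succ, totalDegree_mul_of_isDomain (pow_ne_zero n hq.ne_zero) hq.ne_zero]
    have := one_le_totalDegree_of_prime hq
    omega

theorem fac : PjbStmt → FacStmt := by
  intro pjb E _ q a b D hq hb0 hqD haD hbD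
  obtain ⟨-, -, -, -, -, h6, -, -⟩ := pjb E
  obtain ⟨β, b₁, hnd, hb⟩ := WfDvdMonoid.max_power_factor hb0 hq.irreducible
  have hb₁0 : b₁ ≠ 0 := by
    rintro rfl
    exact hnd (dvd_zero q)
  have hdvd : b₁ ∣ b := ⟨q ^ β, by rw [hb]; ring⟩
  have hβ : β ≤ D := by
    have h1 := le_totalDegree_pow hq β
    have h2 : (q ^ β).totalDegree ≤ b.totalDegree := by
      rw [hb, totalDegree_mul_of_isDomain (pow_ne_zero β hq.ne_zero) hb₁0]
      exact Nat.le_add_right _ _
    omega
  refine ⟨a * q ^ (D + 1 - β), b₁, ?_, ?_, hnd, hb₁0, hdvd, ?_, ?_⟩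
  · refine (totalDegree_mul _ _).trans (Nat.add_le_add haD ?_)
    refine (totalDegree_pow _ _).trans ?_
    exact Nat.mul_le_mul (Nat.sub_le _ _) hqD
  · exact ((h6 ∅ b₁ b hb0 hdvd).2).trans hbD
  · have e : D + 1 = (D + 1 - β) + β := by omega
    conv_rhs => rw [e, pow_add]
    rw [hb]
    ring
  · intro J hqJ haJ hbJ
    exact ⟨mul_mem haJ (pow_mem hqJ _), (h6 J b₁ b hb0 hdvd).1 hbJ⟩

end Pool.Agent.RS.H96
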