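import Pool.Agent.RS.StmtsT

/-!
# Row TXC of squad RS: the coefficients of a polynomial in one of its variables
-/

set_option autoImplicit false

namespace Pool.Agent.RS.H96

open MvPolynomial Pool.Agent.RS

variable {E : Type} [Field E]

theorem toX_monomial (j : ℕ) (m : ℕ →₀ ℕ) (a : E) :
    toX j (monomial m a) = Polynomial.monomial (m j) (monomial (m.erase j) a) := by
  unfold toX
  rw [aeval_monomial, ← Finsupp.mul_prod_erase' m j _ (fun i => pow_zero _)]
  have h1 : ((m.erase j).prod fun i k =>
      (if i = j then (Polynomial.X : Polynomial (MvPolynomial ℕ E)) else Polynomial.C (X i)) ^ k) =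
      Polynomial.C ((m.erase j).prod fun i k => (X i : MvPolynomial ℕ E) ^ k) := by
    rw [Finsupp.prod, Finsupp.prod, map_prod]
    refine Finset.prod_congr rfl fun i hi => ?_
    have hij : i ≠ j := by
      rintro rfl
      rw [Finsupp.support_erase] at hi
      exact (Finset.notMem_erase i _) hi
    rw [if_neg hij, map_pow]
  rw [h1, if_pos rfl, monomial_eq (s := m.erase j) (a := a), ← Polynomial.C_mul_X_pow_eq_monomial,
    map_mul]
  have h2 : (algebraMap E (Polynomial (MvPolynomial ℕ E))) a = Polynomial.C (C a) := rfl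
  rw [h2]
  ring

theorem coeff_toX (j i : ℕ) (f : MvPolynomial ℕ E) :
    (toX j f).coeff i =
      ∑ m ∈ f.support, if m j = i then monomial (m.erase j) (coeff m f) else 0 := by
  conv_lhs => rw [f.as_sum, map_sum]
  rw [Polynomial.finset_sum_coeff]
  refine Finset.sum_congr rfl fun m _ => ?_
  rw [toX_monomial, Polynomial.coeff_monomial]

theorem toX_of_notMem (j : ℕ) (f : MvPolynomial ℕ E) (hj : j ∉ f.vars) :
    toX j f = Polynomial.C f := by
  have h := hom_congr_vars (R := E) (S := Polynomial (MvPolynomial ℕ E)) (σ := ℕ)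
    (f₁ := (toX (E := E) j).toRingHom) (f₂ := Polynomial.C) (p₁ := f) (p₂ := f) ?_ ?_ rfl
  · exact h
  · ext a
    simp [toX, MvPolynomial.algebraMap_eq]
  · intro i hi _
    have hij : i ≠ j := fun h => hj (h ▸ hi)
    simp [toX, hij]

theorem vars_coeff_toX (j i : ℕ) (f : MvPolynomial ℕ E) :
    ((toX j f).coeff i).vars ⊆ f.vars.erase j := by
  classical
  rw [coeff_toX]
  refine (vars_sum_subset _ _).trans ?_
  intro l hl
  rw [Finset.mem_biUnion] at hl
  obtain ⟨m, hm, hl⟩ := hl
  split_ifs at hl with h
  · by_cases hc : coeff m f = 0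
    · rw [hc, map_zero] at hl
      simp at hl
    · rw [vars_monomial hc, Finsupp.support_erase, Finset.mem_erase] at hl
      rw [Finset.mem_erase]
      exact ⟨hl.1, (mem_vars l).2 ⟨m, hm, hl.2⟩⟩
  · simp at hl

theorem txc : TxcStmt := by
  intro E _ j f
  classical
  have h4 : j ∉ f.vars → toX j f = Polynomial.C f := toX_of_notMem j f
  refine ⟨fun i => ?_, fun i => vars_coeff_toX j i f, ?_, ⟨fun h => ?_, fun h => ?_⟩, h4⟩
  · rw [coeff_toX]
    refine totalDegree_finsetSum_le fun m hm => ?_
    split_ifs
    · refine (totalDegree_monomial_le _ _).trans ?_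
      refine le_trans ?_ (le_totalDegree hm)
      have h : m.erase j ≤ m := by
        intro l
        by_cases hl : l = j
        · subst hl; simp
        · rw [Finsupp.erase_ne hl]
      exact Finsupp.sum_le_sum_index h (fun _ _ => fun _ _ h => h) (fun _ _ => rfl)
    · simp
  · rw [Polynomial.natDegree_le_iff_coeff_eq_zero]
    intro N hN
    rw [coeff_toX]
    refine Finset.sum_eq_zero fun m hm => if_neg ?_
    rintro rfl
    have h1 : m.sum (fun _ e => e) ≤ f.totalDegree := le_totalDegree hm
    have h2 : m j ≤ m.sum (fun _ e => e) := by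
      by_cases hj : j ∈ m.support
      · exact Finset.single_le_sum (f := fun i => m i) (fun i _ => Nat.zero_le _) hj
      · rw [Finsupp.notMem_support_iff] at hj
        omega
    omega
  · by_contra hj
    rw [h4 hj, Polynomial.natDegree_C] at h
    exact lt_irrefl _ h
  · by_contra hn
    have h0 : (toX j f).natDegree = 0 := by omega
    have h1 : toX j f = Polynomial.C ((toX j f).coeff 0) := Polynomial.eq_C_of_natDegree_eq_zero h0
    have h2 : f = (toX j f).coeff 0 := by
      have := eval_toX j f
      rw [h1, Polynomial.eval_C] at this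
      exact this.symm
    have h3 := vars_coeff_toX j 0 f
    rw [← h2] at h3
    exact (Finset.mem_erase.1 (h3 h)).1 rfl

end Pool.Agent.RS.H96
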